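import Mathlib

namespace Pool.Agent.Results.MP_afd993_co.NoLinearBound

/-- Domination number: least size of a set `S` such that each vertex outside `S` has a
neighbour in `S`. -/
noncomputable def domNum {V : Type} (G : SimpleGraph V) : ℕ :=
  sInf {k | ∃ S : Finset V, (∀ v, v ∉ S → ∃ u ∈ S, G.Adj v u) ∧ S.card = k}

/-- `π` exhibits `G` as a `k`-fold cover of `F`. -/
def IsKFoldCover {W V : Type} (G : SimpleGraph W) (F : SimpleGraph V) (π : W → V) (k : ℕ) : Prop :=
  Function.Surjective π ∧ (∀ w, Set.BijOn π (G.neighborSet w) (F.neighborSet (π w))) ∧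
  ∀ v, Nat.card (π ⁻¹' {v}) = k

theorem cover_exists {V : Type} [Fintype V] (F : SimpleGraph V) (k : ℕ) (hk : 2 ≤ k)
    (hd : ∀ v, k - 1 ≤ Nat.card (F.neighborSet v)) :
    ∃ G : SimpleGraph (V × ZMod k), IsKFoldCover G F Prod.fst k ∧ domNum G ≤ Fintype.card V := by
  classical
  have : NeZero k := ⟨by omega⟩
  have : Fact (1 < k) := ⟨hk⟩
  have he : ∀ v, Nonempty ({t : ZMod k // t ≠ 0} ↪ F.neighborSet v) := by
    intro v
    apply Function.Embedding.nonempty_of_card_le
    have := hd v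
    rw [Nat.card_eq_fintype_card] at this
    simpa using this
  let e := fun v => Classical.choice (he v)
  have : Nonempty {t : ZMod k // t ≠ 0} := ⟨⟨1, one_ne_zero⟩⟩
  let l : V → V → {t : ZMod k // t ≠ 0} :=
    fun v => Function.invFun (fun t => (e v t : V))
  have hl : ∀ v t, l v (e v t) = t := fun v =>
    Function.leftInverse_invFun (Subtype.val_injective.comp (e v).injective)
  let G : SimpleGraph (V × ZMod k) :=
    { Adj := fun a b => F.Adj a.1 b.1 ∧
        Equiv.swap 1 (l a.1 b.1 : ZMod k) a.2 + Equiv.swap 1 (l b.1 a.1 : ZMod k) b.2 = 1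
      symm := ⟨fun a b h => ⟨h.1.symm, by rw [add_comm]; exact h.2⟩⟩
      loopless := ⟨fun a h => F.irrefl h.1⟩ }
  refine ⟨G, ⟨Prod.fst_surjective, fun w => ⟨fun b hb => hb.1, ?_, ?_⟩, fun v => ?_⟩, ?_⟩
  · rintro ⟨u, x⟩ hx ⟨u', y⟩ hy (h : u = u')
    subst h
    have h1 := hx.2
    have h2 := hy.2
    have h3 := add_left_cancel (h1.trans h2.symm)
    exact Prod.ext rfl ((Equiv.swap _ _).injective h3)
  · intro u hu
    refine ⟨(u, Equiv.swap 1 (l u w.1 : ZMod k)
      (1 - Equiv.swap 1 (l w.1 u : ZMod k) w.2)), ⟨hu, ?_⟩, rfl⟩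
    simp
  · have : (Prod.fst ⁻¹' {v} : Set (V × ZMod k)) ≃ ZMod k :=
      { toFun := fun a => a.1.2
        invFun := fun x => ⟨(v, x), rfl⟩
        left_inv := by
          rintro ⟨⟨u, x⟩, h⟩
          have h' : u = v := h
          subst h'
          rfl
        right_inv := fun x => rfl }
    rw [Nat.card_congr this, Nat.card_zmod]
  · apply Nat.sInf_le
    refine ⟨Finset.univ.map ⟨fun v => (v, 0), fun a b h => (Prod.mk.inj h).1⟩, ?_, by simp⟩
    rintro ⟨v, y⟩ hy
    have hy0 : y ≠ 0 := by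
      rintro rfl
      simp at hy
    refine ⟨((e v ⟨y, hy0⟩ : V), 0), by simp, (e v ⟨y, hy0⟩).2, ?_⟩
    simp only [hl]
    rw [Equiv.swap_apply_right, Equiv.swap_apply_of_ne_of_ne zero_ne_one (l _ _).2.symm, add_zero]

def dotG (d : ℕ) : SimpleGraph {x : Fin d → ZMod 2 // x ≠ 0} where
  Adj a b := a ≠ b ∧ a.1 ⬝ᵥ b.1 = 1
  symm := ⟨fun a b h => ⟨h.1.symm, by rw [dotProduct_comm]; exact h.2⟩⟩
  loopless := ⟨fun a h => h.1 rfl⟩

theorem deg_dot (d : ℕ) (v : {x : Fin (d + 1) → ZMod 2 // x ≠ 0}) :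
    2 ^ d - 1 ≤ Nat.card ((dotG (d + 1)).neighborSet v) := by
  classical
  obtain ⟨i, hi⟩ := Function.ne_iff.mp v.2
  have hi1 : v.1 i = 1 := by
    have : ∀ a : ZMod 2, a ≠ 0 → a = 1 := by decide
    exact this _ hi
  let A := Finset.univ.filter (fun y : Fin (d + 1) → ZMod 2 => v.1 ⬝ᵥ y = 1)
  let B := Finset.univ.filter (fun y : Fin (d + 1) → ZMod 2 => ¬ v.1 ⬝ᵥ y = 1)
  have hAB : A.card + B.card = 2 ^ (d + 1) := by
    rw [Finset.card_filter_add_card_filter_not]
    simp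
  have hBA : B.card ≤ A.card := by
    refine Finset.card_le_card_of_injOn (fun y => y + Pi.single i 1) ?_ ?_
    · intro y hy
      simp only [A, B, Finset.coe_filter, Finset.mem_univ, true_and, Set.mem_ofPred_eq] at hy ⊢
      rw [dotProduct_add, dotProduct_single, hi1]
      have : ∀ a : ZMod 2, ¬ a = 1 → a + 1 * 1 = 1 := by decide
      exact this _ hy
    · intro y _ z _ h
      exact add_right_cancel h
  have h1 : (A.erase v.1).card ≤ Nat.card ((dotG (d + 1)).neighborSet v) := by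
    rw [← Nat.card_eq_finsetCard]
    have hz : ∀ y ∈ A.erase v.1, y ≠ 0 := by
      intro y hy h0
      subst h0
      simp [A] at hy
    refine Nat.card_le_card_of_injective
      (fun y : (A.erase v.1) => (⟨⟨y.1, hz _ y.2⟩, ?_⟩ : (dotG (d + 1)).neighborSet v)) ?_
    · have := y.2
      simp only [A, Finset.mem_erase, Finset.mem_filter, Finset.mem_univ, true_and] at this
      exact ⟨fun h => this.1 (congrArg Subtype.val h).symm, this.2⟩
    · intro y z h
      exact Subtype.ext (congrArg (fun a => a.1.1) h)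
  have h2 := Finset.pred_card_le_card_erase (s := A) (a := v.1)
  rw [pow_succ] at hAB
  omega

theorem dom_dot (m : ℕ) : m < domNum (dotG (2 * m + 1 + 1)) := by
  classical
  unfold domNum
  rw [Nat.lt_iff_add_one_le]
  refine le_csInf ⟨_, Finset.univ, by simp, rfl⟩ ?_
  rintro k ⟨S, hS, rfl⟩
  by_contra hlt
  have hSm : S.card ≤ m := by omega
  let φ : (Fin (2 * m + 1 + 1) → ZMod 2) → (S → ZMod 2) := fun y x => x.1.1 ⬝ᵥ y
  have hc : Fintype.card (S → ZMod 2) * (m + 1) < Fintype.card (Fin (2 * m + 1 + 1) → ZMod 2) := by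
    simp only [Fintype.card_fun, ZMod.card, Fintype.card_coe, Fintype.card_fin]
    have h1 : 2 ^ S.card ≤ 2 ^ m := Nat.pow_le_pow_right (by norm_num) hSm
    have h2 : m + 1 < 2 ^ (m + 2) := by
      have := Nat.lt_two_pow_self (n := m + 2)
      omega
    calc 2 ^ S.card * (m + 1) ≤ 2 ^ m * (m + 1) := Nat.mul_le_mul_right _ h1
      _ < 2 ^ m * 2 ^ (m + 2) := Nat.mul_lt_mul_of_pos_left h2 (by positivity)
      _ = 2 ^ (2 * m + 1 + 1) := by rw [← pow_add]; congr 1; omega
  obtain ⟨z, hz⟩ := Fintype.exists_lt_card_fiber_of_mul_lt_card φ hc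
  set T := Finset.univ.filter (fun y => φ y = z) with hT
  obtain ⟨y0, hy0⟩ : T.Nonempty := Finset.card_pos.mp (by omega)
  have h3 : (insert 0 (S.image Subtype.val)).card < (T.image (fun y => y - y0)).card := by
    rw [Finset.card_image_of_injective _ sub_left_injective]
    have h4 := Finset.card_insert_le 0 (S.image Subtype.val)
    have h5 := Finset.card_image_le (s := S) (f := Subtype.val)
    omega
  obtain ⟨w, hw1, hw2⟩ := Finset.exists_mem_notMem_of_card_lt_card h3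
  obtain ⟨y, hy, rfl⟩ := Finset.mem_image.mp hw1
  simp only [Finset.mem_insert, Finset.mem_image, not_or, not_exists, not_and] at hw2
  obtain ⟨u, hu, hadj⟩ := hS ⟨y - y0, hw2.1⟩ (fun h => hw2.2 _ h rfl)
  have e1 : φ y = z := (Finset.mem_filter.mp hy).2
  have e2 : φ y0 = z := (Finset.mem_filter.mp hy0).2
  have e3 := congrFun (e1.trans e2.symm) ⟨u, hu⟩
  have e4 := hadj.2
  simp only [φ] at e3
  rw [dotProduct_comm, dotProduct_sub, e3, sub_self] at e4
  exact zero_ne_one e4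

theorem result : ∀ c : ℝ, 0 < c → ∃ (k : ℕ) (V W : Type) (_ : Finite V) (_ : Finite W)
    (F : SimpleGraph V) (G : SimpleGraph W) (π : W → V), 1 ≤ k ∧ IsKFoldCover G F π k ∧
    (domNum G : ℝ) < c * k * domNum F := by
  intro c hc
  obtain ⟨m, hm⟩ := exists_nat_gt (2 / c)
  have hk : 2 ≤ 2 ^ (2 * m + 1) := by
    rw [pow_succ]
    have : 0 < 2 ^ (2 * m) := by positivity
    omega
  have : NeZero (2 ^ (2 * m + 1)) := ⟨by omega⟩
  obtain ⟨G, hG1, hG2⟩ := cover_exists (dotG (2 * m + 1 + 1)) (2 ^ (2 * m + 1)) hk (deg_dot _)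
  refine ⟨2 ^ (2 * m + 1), _, _, inferInstance, inferInstance, _, G, _, by omega, hG1, ?_⟩
  have h1 : Fintype.card {x : Fin (2 * m + 1 + 1) → ZMod 2 // x ≠ 0} ≤ 2 * 2 ^ (2 * m + 1) := by
    refine (Fintype.card_subtype_le _).trans ?_
    simp [pow_succ, mul_comm]
  have h2 : (domNum G : ℝ) ≤ 2 * ((2 ^ (2 * m + 1) : ℕ) : ℝ) := by exact_mod_cast hG2.trans h1
  have h3 : (m : ℝ) < domNum (dotG (2 * m + 1 + 1)) := by exact_mod_cast dom_dot m
  have h4 : (0 : ℝ) < ((2 ^ (2 * m + 1) : ℕ) : ℝ) := by positivity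
  rw [div_lt_iff₀ hc] at hm
  have h5 : 2 < c * (domNum (dotG (2 * m + 1 + 1)) : ℝ) := by nlinarith
  nlinarith

end Pool.Agent.Results.MP_afd993_co.NoLinearBound
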